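import Pool.Agent.H664.EX.Stm

/-!
JOB ROOTV: a root of `P` near `t γ` over the regions.
-/

set_option autoImplicit false

namespace Pool.Agent.H100.EX

open MvPolynomial Filter Topology Metric Pool.Agent.H664.EX

theorem eval_eq3 (P : MvPolynomial (Fin 3) ℂ) (z t w : ℂ) :
    eval ![z, t, t * w] P =
      ∑ m ∈ P.support, coeff m P * (z ^ m 0 * t ^ (m 1 + m 2) * w ^ m 2) := by
  rw [MvPolynomial.eval_eq']
  refine Finset.sum_congr rfl fun m _ => ?_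
  have e0 : (![z, t, t * w] : Fin 3 → ℂ) 0 = z := rfl
  have e1 : (![z, t, t * w] : Fin 3 → ℂ) 1 = t := rfl
  have e2 : (![z, t, t * w] : Fin 3 → ℂ) 2 = t * w := rfl
  rw [Fin.prod_univ_three, e0, e1, e2, mul_pow, pow_add]
  ring

/-- the difference to the leading part -/
theorem est {P : MvPolynomial (Fin 3) ℂ} {d J : ℕ} {γ : ℂ} (hR : Root P d J γ) (W : ℝ)
    (hW : 0 ≤ W) : ∃ (N : ℕ) (C : ℝ), 0 ≤ C ∧ ∀ z t w : ℂ, 1 ≤ ‖z‖ → 1 ≤ ‖t‖ → ‖w‖ ≤ W →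
      ‖eval ![z, t, t * w] P - t ^ d * z ^ J * leadAt P d J w‖ ≤
        C * (1 / ‖z‖ + ‖z‖ ^ N / ‖t‖) * (‖t‖ ^ d * ‖z‖ ^ J) := by
  classical
  refine ⟨∑ m ∈ P.support, m 0, ∑ m ∈ P.support, ‖coeff m P‖ * W ^ m 2, by positivity, ?_⟩
  intro z t w hz ht hw
  set N := ∑ m ∈ P.support, m 0 with hN
  have hz0 : 0 < ‖z‖ := by linarith
  have ht0 : 0 < ‖t‖ := by linarith
  have hkey : ∀ m ∈ P.support, ¬ (m 1 + m 2 = d ∧ m 0 = J) →
      ‖z‖ ^ m 0 * ‖t‖ ^ (m 1 + m 2) ≤ (1 / ‖z‖ + ‖z‖ ^ N / ‖t‖) * (‖t‖ ^ d * ‖z‖ ^ J) := by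
    intro m hm hne
    have hmd := hR.le m hm
    have hmN : m 0 ≤ N := Finset.single_le_sum (f := fun m : Fin 3 →₀ ℕ => m 0)
      (fun _ _ => Nat.zero_le _) hm
    have hA : 0 ≤ 1 / ‖z‖ * (‖t‖ ^ d * ‖z‖ ^ J) := by positivity
    have hB : 0 ≤ ‖z‖ ^ N / ‖t‖ * (‖t‖ ^ d * ‖z‖ ^ J) := by positivity
    rw [add_mul]
    by_cases h1 : m 1 + m 2 = d
    · have h2 := hR.leJ m hm h1
      have h3 : m 0 + 1 ≤ J := by
        have : m 0 ≠ J := fun h => hne ⟨h1, h⟩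
        omega
      have h4 : ‖z‖ ^ (m 0 + 1) ≤ ‖z‖ ^ J := pow_le_pow_right₀ hz h3
      have h5 : ‖z‖ ^ m 0 * ‖t‖ ^ (m 1 + m 2) ≤ 1 / ‖z‖ * (‖t‖ ^ d * ‖z‖ ^ J) := by
        rw [h1]
        have h6 : ‖z‖ ^ m 0 * ‖t‖ ^ d = 1 / ‖z‖ * (‖t‖ ^ d * ‖z‖ ^ (m 0 + 1)) := by
          rw [pow_succ]; field_simp
        rw [h6]
        gcongr
      linarith
    · have h3 : m 1 + m 2 + 1 ≤ d := by omega
      have h4 : ‖t‖ ^ (m 1 + m 2 + 1) ≤ ‖t‖ ^ d := pow_le_pow_right₀ ht h3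
      have h5 : ‖z‖ ^ m 0 ≤ ‖z‖ ^ N := pow_le_pow_right₀ hz hmN
      have h6 : 1 ≤ ‖z‖ ^ J := one_le_pow₀ hz
      have h7 : ‖z‖ ^ m 0 * ‖t‖ ^ (m 1 + m 2) ≤ ‖z‖ ^ N / ‖t‖ * (‖t‖ ^ d * ‖z‖ ^ J) := by
        have h8 : ‖z‖ ^ m 0 * ‖t‖ ^ (m 1 + m 2) =
            ‖z‖ ^ m 0 / ‖t‖ * (‖t‖ ^ (m 1 + m 2 + 1) * 1) := by
          rw [pow_succ]; field_simp
        rw [h8]
        gcongr
      linarith
  have hdiff : eval ![z, t, t * w] P - t ^ d * z ^ J * leadAt P d J w =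
      ∑ m ∈ P.support with ¬ (m 1 + m 2 = d ∧ m 0 = J),
        coeff m P * (z ^ m 0 * t ^ (m 1 + m 2) * w ^ m 2) := by
    rw [eval_eq3, ← Finset.sum_filter_add_sum_filter_not P.support
      (fun m => m 1 + m 2 = d ∧ m 0 = J), leadAt, Finset.mul_sum]
    have h1 : ∑ m ∈ P.support with m 1 + m 2 = d ∧ m 0 = J,
        coeff m P * (z ^ m 0 * t ^ (m 1 + m 2) * w ^ m 2) =
        ∑ m ∈ P.support with m 1 + m 2 = d ∧ m 0 = J, t ^ d * z ^ J * (coeff m P * w ^ m 2) := by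
      refine Finset.sum_congr rfl fun m hm => ?_
      rw [Finset.mem_filter] at hm
      rw [hm.2.1, hm.2.2]; ring
    rw [h1, add_sub_cancel_left]
  rw [hdiff]
  calc ‖∑ m ∈ P.support with ¬ (m 1 + m 2 = d ∧ m 0 = J),
        coeff m P * (z ^ m 0 * t ^ (m 1 + m 2) * w ^ m 2)‖
      ≤ ∑ m ∈ P.support with ¬ (m 1 + m 2 = d ∧ m 0 = J),
        ‖coeff m P‖ * W ^ m 2 * ((1 / ‖z‖ + ‖z‖ ^ N / ‖t‖) * (‖t‖ ^ d * ‖z‖ ^ J)) := by
        refine norm_sum_le_of_le _ fun m hm => ?_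
        rw [Finset.mem_filter] at hm
        rw [norm_mul, norm_mul, norm_mul, norm_pow, norm_pow, norm_pow]
        have h1 := hkey m hm.1 hm.2
        have h2 : ‖w‖ ^ m 2 ≤ W ^ m 2 := pow_le_pow_left₀ (norm_nonneg _) hw _
        calc ‖coeff m P‖ * (‖z‖ ^ m 0 * ‖t‖ ^ (m 1 + m 2) * ‖w‖ ^ m 2)
            ≤ ‖coeff m P‖ * (((1 / ‖z‖ + ‖z‖ ^ N / ‖t‖) * (‖t‖ ^ d * ‖z‖ ^ J)) * W ^ m 2) := by
              gcongr
          _ = _ := by ring
    _ ≤ ∑ m ∈ P.support,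
        ‖coeff m P‖ * W ^ m 2 * ((1 / ‖z‖ + ‖z‖ ^ N / ‖t‖) * (‖t‖ ^ d * ‖z‖ ^ J)) := by
        refine Finset.sum_le_sum_of_subset_of_nonneg (Finset.filter_subset _ _) ?_
        intro m _ _
        positivity
    _ = _ := by rw [← Finset.sum_mul]; ring

/-- smallness on the regions -/
theorem small (N : ℕ) (C ε : ℝ) (hC : 0 ≤ C) (hε : 0 < ε) : ∃ R₀ : ℝ, ∀ R a : ℝ, R₀ ≤ R →
    Real.log R ≤ a → a ≤ Real.log R ^ 2 → ∀ ω : ℂ, ‖ω‖ = 1 → ∀ x ∈ reg a R ω,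
      1 ≤ ‖x 0‖ ∧ 1 ≤ ‖x 1‖ ∧ C * (1 / ‖x 0‖ + ‖x 0‖ ^ N / ‖x 1‖) ≤ ε := by
  have h1 : Tendsto (fun R : ℝ => C * (2 / Real.log R) +
      C * (2 ^ N * 2) * (Real.log R ^ (2 * N) / R)) atTop (𝓝 0) := by
    have e1 : Tendsto (fun R : ℝ => C * (2 / Real.log R)) atTop (𝓝 (C * 0)) :=
      (Real.tendsto_log_atTop.const_div_atTop 2).const_mul C
    have e2 : Tendsto (fun R : ℝ => C * (2 ^ N * 2) * (Real.log R ^ (2 * N) / R)) atTop
        (𝓝 (C * (2 ^ N * 2) * 0)) := by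
      have := (Real.isLittleO_pow_log_id_atTop (n := 2 * N)).tendsto_div_nhds_zero
      exact this.const_mul _
    have := e1.add e2
    simpa using this
  have h2 : ∀ᶠ R : ℝ in atTop, C * (2 / Real.log R) +
      C * (2 ^ N * 2) * (Real.log R ^ (2 * N) / R) ≤ ε :=
    (h1.eventually (gt_mem_nhds hε)).mono fun _ h => h.le
  have h3 : ∀ᶠ R : ℝ in atTop, 2 ≤ Real.log R := Real.tendsto_log_atTop.eventually_ge_atTop 2
  have h4 : ∀ᶠ R : ℝ in atTop, 2 ≤ R := eventually_ge_atTop 2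
  obtain ⟨R₀, hR₀⟩ := eventually_atTop.1 ((h2.and h3).and h4)
  refine ⟨R₀, fun R a hR ha1 ha2 ω hω x hx => ?_⟩
  obtain ⟨⟨h2, h3⟩, h4⟩ := hR₀ R hR
  obtain ⟨hx0, hx1⟩ := hx
  have ha : 0 < a := by linarith
  have hR0 : 0 < R := by linarith
  have hIa : ‖Complex.I * (a : ℂ)‖ = a := by
    rw [norm_mul, Complex.norm_I, one_mul, Complex.norm_real, Real.norm_eq_abs, abs_of_pos ha]
  have hRo : ‖(R : ℂ) * ω‖ = R := by
    rw [norm_mul, hω, mul_one, Complex.norm_real, Real.norm_eq_abs, abs_of_pos hR0]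
  have hz1 : a / 2 ≤ ‖x 0‖ := by
    have := norm_sub_norm_le (Complex.I * (a : ℂ)) (x 0)
    rw [norm_sub_rev, hIa] at this
    linarith
  have hz2 : ‖x 0‖ ≤ 2 * Real.log R ^ 2 := by
    have := norm_sub_norm_le (x 0) (Complex.I * (a : ℂ))
    rw [hIa] at this
    linarith
  have ht1 : R / 2 ≤ ‖x 1‖ := by
    have := norm_sub_norm_le ((R : ℂ) * ω) (x 1)
    rw [norm_sub_rev, hRo] at this
    linarith
  refine ⟨by linarith, by linarith, le_trans ?_ h2⟩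
  have hL : 0 < Real.log R := by linarith
  have e1 : 1 / ‖x 0‖ ≤ 2 / Real.log R := by
    rw [div_le_div_iff₀ (by linarith) hL]
    linarith
  have e2 : ‖x 0‖ ^ N / ‖x 1‖ ≤ 2 ^ N * 2 * (Real.log R ^ (2 * N) / R) := by
    have e3 : ‖x 0‖ ^ N ≤ (2 * Real.log R ^ 2) ^ N := pow_le_pow_left₀ (norm_nonneg _) hz2 _
    rw [mul_pow, ← pow_mul] at e3
    calc ‖x 0‖ ^ N / ‖x 1‖ ≤ (2 ^ N * Real.log R ^ (2 * N)) / (R / 2) := by gcongr
      _ = _ := by field_simp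
  calc C * (1 / ‖x 0‖ + ‖x 0‖ ^ N / ‖x 1‖) ≤
      C * (2 / Real.log R + 2 ^ N * 2 * (Real.log R ^ (2 * N) / R)) := by gcongr
    _ = _ := by ring

/-- the leading part as a polynomial -/
noncomputable def lp (P : MvPolynomial (Fin 3) ℂ) (d J : ℕ) : Polynomial ℂ :=
  ∑ m ∈ P.support with m 1 + m 2 = d ∧ m 0 = J, Polynomial.C (coeff m P) * Polynomial.X ^ (m 2)

theorem eval_lp (P : MvPolynomial (Fin 3) ℂ) (d J : ℕ) (w : ℂ) :
    (lp P d J).eval w = leadAt P d J w := by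
  unfold lp leadAt
  rw [Polynomial.eval_finsetSum]
  simp

theorem lp_ne {P : MvPolynomial (Fin 3) ℂ} {d J : ℕ} {γ : ℂ} (hR : Root P d J γ) :
    lp P d J ≠ 0 := by
  classical
  obtain ⟨m, hm, hm1, hm2⟩ := hR.ex
  intro h
  have h1 : (lp P d J).coeff (m 2) = coeff m P := by
    unfold lp
    rw [Polynomial.finsetSum_coeff, Finset.sum_eq_single m]
    · simp
    · intro k hk hkm
      rw [Finset.mem_filter] at hk
      rw [Polynomial.coeff_C_mul_X_pow, if_neg]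
      intro he
      apply hkm
      ext i
      fin_cases i
      · change k 0 = m 0
        rw [hk.2.2, hm2]
      · change k 1 = m 1
        omega
      · change k 2 = m 2
        exact he.symm
    · intro hk
      exact absurd (Finset.mem_filter.2 ⟨hm, hm1, hm2⟩) hk
  rw [h, Polynomial.coeff_zero] at h1
  exact (mem_support_iff.1 hm) h1.symm

theorem rootv : S_rootv := by
  classical
  intro P d J γ hR δ hδ
  have hne := lp_ne hR
  -- the radius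
  obtain ⟨η, ⟨hη0, hη1⟩, hηn⟩ : ∃ η ∈ Set.Ioo (0 : ℝ) (min δ 1),
      η ∉ ((lp P d J).roots.toFinset.image fun r => ‖r - γ‖ : Finset ℝ) := by
    have hinf : (Set.Ioo (0 : ℝ) (min δ 1)).Infinite :=
      Set.Ioo_infinite (lt_min hδ one_pos)
    exact hinf.exists_notMem_finset _
  have hηδ : η < δ := hη1.trans_le (min_le_left _ _)
  have hη1' : η < 1 := hη1.trans_le (min_le_right _ _)
  have hcirc : ∀ w ∈ sphere γ η, leadAt P d J w ≠ 0 := by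
    intro w hw h0
    apply hηn
    rw [Finset.mem_image]
    refine ⟨w, ?_, mem_sphere_iff_norm.1 hw⟩
    rw [Multiset.mem_toFinset, Polynomial.mem_roots hne]
    show (lp P d J).eval w = 0
    rw [eval_lp, h0]
  have hcont : Continuous fun w => ‖leadAt P d J w‖ := by
    have : (fun w => ‖leadAt P d J w‖) = fun w => ‖(lp P d J).eval w‖ := by
      funext w; rw [eval_lp]
    rw [this]
    exact (lp P d J).continuous.norm
  obtain ⟨w₀, hw₀, hmin⟩ := (isCompact_sphere γ η).exists_isMinOn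
    (NormedSpace.sphere_nonempty.2 hη0.le) hcont.continuousOn
  set m₀ := ‖leadAt P d J w₀‖ with hm₀
  have hm0 : 0 < m₀ := norm_pos_iff.2 (hcirc w₀ hw₀)
  have hm : ∀ w ∈ sphere γ η, m₀ ≤ ‖leadAt P d J w‖ := fun w hw => hmin hw
  obtain ⟨N, C, hC, hest⟩ := est hR (‖γ‖ + 1) (by positivity)
  obtain ⟨R₀, hR₀⟩ := small N C (m₀ / 4) hC (by positivity)
  refine ⟨η, R₀, hη0, hηδ, fun R a h1 h2 h3 ω hω x hx => ?_⟩
  obtain ⟨hz, ht, hsm⟩ := hR₀ R a h1 h2 h3 ω hω x hx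
  set A := ‖x 1‖ ^ d * ‖x 0‖ ^ J with hA
  have hA0 : 0 < A := by
    have : 0 < ‖x 0‖ := by linarith
    have : 0 < ‖x 1‖ := by linarith
    positivity
  have hAn : ∀ w : ℂ, ‖x 1 ^ d * x 0 ^ J * leadAt P d J w‖ = A * ‖leadAt P d J w‖ := by
    intro w
    rw [norm_mul, norm_mul, norm_pow, norm_pow]
  have hE : ∀ w : ℂ, ‖w - γ‖ ≤ η →
      ‖eval ![x 0, x 1, x 1 * w] P - x 1 ^ d * x 0 ^ J * leadAt P d J w‖ ≤ m₀ / 4 * A := by
    intro w hw
    have hw' : ‖w‖ ≤ ‖γ‖ + 1 := by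
      have := norm_sub_norm_le w γ
      linarith
    exact (hest (x 0) (x 1) w hz ht hw').trans (mul_le_mul_of_nonneg_right hsm hA0.le)
  have hlow : ∀ w : ℂ, ‖w - γ‖ = η → 3 / 4 * m₀ * A ≤ ‖eval ![x 0, x 1, x 1 * w] P‖ := by
    intro w hw
    have e1 := hE w hw.le
    have e2 := hm w (mem_sphere_iff_norm.2 hw)
    have e3 := norm_sub_norm_le (x 1 ^ d * x 0 ^ J * leadAt P d J w) (eval ![x 0, x 1, x 1 * w] P)
    rw [norm_sub_rev, hAn] at e3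
    have e4 : A * m₀ ≤ A * ‖leadAt P d J w‖ := mul_le_mul_of_nonneg_left e2 hA0.le
    nlinarith
  have hpos : 0 < 3 / 4 * m₀ * A := by positivity
  have hcircne : ∀ w : ℂ, ‖w - γ‖ = η → eval ![x 0, x 1, x 1 * w] P ≠ 0 := by
    intro w hw h0
    have := hlow w hw
    rw [h0, norm_zero] at this
    linarith
  refine ⟨hcircne, ?_⟩
  by_contra hno
  push Not at hno
  have hnz : ∀ w ∈ closedBall γ η, eval ![x 0, x 1, x 1 * w] P ≠ 0 := by
    intro w hw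
    rw [mem_closedBall, dist_eq_norm] at hw
    rcases hw.lt_or_eq with h | h
    · exact hno w h
    · exact hcircne w h
  have hdf : Differentiable ℂ fun w : ℂ => eval ![x 0, x 1, x 1 * w] P := by
    have e : (fun w : ℂ => eval ![x 0, x 1, x 1 * w] P) = fun w : ℂ =>
        ∑ m ∈ P.support, coeff m P * (x 0 ^ m 0 * x 1 ^ (m 1 + m 2) * w ^ m 2) := by
      funext w; rw [eval_eq3]
    rw [e]
    fun_prop
  have hd : DiffContOnCl ℂ (fun w : ℂ => (eval ![x 0, x 1, x 1 * w] P)⁻¹) (ball γ η) := by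
    have hD : DifferentiableOn ℂ (fun w : ℂ => (eval ![x 0, x 1, x 1 * w] P)⁻¹)
        (closedBall γ η) := fun w hw => (hdf w).differentiableWithinAt.inv (hnz w hw)
    refine DifferentiableOn.diffContOnCl ?_
    rw [closure_ball γ hη0.ne']
    exact hD
  have hmax := Complex.norm_le_of_forall_mem_frontier_norm_le (U := ball γ η)
    (C := (3 / 4 * m₀ * A)⁻¹) isBounded_ball hd (by
      intro w hw
      rw [frontier_ball γ hη0.ne'] at hw
      rw [norm_inv]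
      exact inv_anti₀ hpos (hlow w (mem_sphere_iff_norm.1 hw))) (z := γ)
    (subset_closure (mem_ball_self hη0))
  have hγ := hE γ (by rw [sub_self, norm_zero]; exact hη0.le)
  rw [hR.root, mul_zero, sub_zero] at hγ
  have hγ0 : 0 < ‖eval ![x 0, x 1, x 1 * γ] P‖ :=
    norm_pos_iff.2 (hnz γ (mem_closedBall_self hη0.le))
  rw [norm_inv] at hmax
  have := (inv_le_inv₀ hγ0 hpos).1 hmax
  nlinarith

end Pool.Agent.H100.EX
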