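import Pool.Agent.H664.EX.Stm2
import Pool.Graph.R_pool_sql_team_seeded_3997aac3.Q239.EG.Base

/-!
JOB ROT: rotundity in the function field.
-/

set_option autoImplicit false

namespace Pool.Agent.H100.EX

open MvPolynomial Filter Topology Metric Pool.Agent.W996.EC Pool.Agent.Q72.EG Pool.Agent.H664.FH
open Pool.Agent.H664.EX

section field

variable {E : Type} [Field E] [Algebra ℂ E]

open scoped IntermediateField.algebraAdjoinAdjoin in
theorem al_ring {A : Set E} {a : E} (h : Al A a) : IsAlgebraic (Algebra.adjoin ℂ A) a :=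
  (IsFractionRing.isAlgebraic_iff (Algebra.adjoin ℂ A) (IntermediateField.adjoin ℂ A) E).2 h

/-- two functions which are algebraic over `ℂ(u)` are dependent -/
theorem dep_of_al {τ : Type} (θ : τ → E) (u : E) (J : Finset τ) (hJ : J.card = 2)
    (h : ∀ j ∈ J, Al {u} (θ j)) : ¬ AlgebraicIndependent ℂ (fun j : J => θ j) := by
  intro hi
  set I : Set E := Set.range (fun j : J => θ j) with hI
  have h1 : (AlgebraicIndependent.matroid ℂ E).Indep I := by
    rw [AlgebraicIndependent.matroid_indep_iff]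
    exact hi.coe_range
  have h2 : I ⊆ (AlgebraicIndependent.matroid ℂ E).closure {u} := by
    rw [AlgebraicIndependent.matroid_closure_eq]
    rintro _ ⟨⟨j, hj⟩, rfl⟩
    exact al_ring (h j hj)
  have h3 := h1.encard_le_eRk_of_subset h2
  rw [Matroid.eRk_closure_eq] at h3
  have h4 := h3.trans (Matroid.eRk_le_encard _ _)
  rw [Set.encard_singleton] at h4
  have h5 : I.encard = 2 := by
    rw [hI, ← Set.image_univ, hi.injective.encard_image, Set.encard_univ]
    simp [hJ]
  rw [h5] at h4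
  norm_num at h4

/-- a relation between two functions, in the given variables -/
theorem rel_of_dep {τ : Type} (θ : τ → E) (J : Finset τ)
    (h : ¬ AlgebraicIndependent ℂ (fun j : J => θ j)) :
    ∃ f : MvPolynomial τ ℂ, f ≠ 0 ∧ f.vars ⊆ J ∧ aeval θ f = 0 := by
  classical
  rw [algebraicIndependent_iff] at h
  push Not at h
  obtain ⟨p, hp, hp0⟩ := h
  refine ⟨rename (Subtype.val : J → τ) p, ?_, ?_, ?_⟩
  · intro h0
    apply hp0
    exact rename_injective _ Subtype.val_injective (by rw [h0, map_zero])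
  · refine (vars_rename _ _).trans ?_
    intro i hi
    obtain ⟨j, -, rfl⟩ := Finset.mem_image.1 hi
    exact j.2
  · rw [aeval_rename]
    exact hp

end field

/-- monomials become polynomials after multiplication -/
theorem zpow_frac {n : ℕ} {F : Type} [Field F] (y : Fin n → F) (hy : ∀ i, y i ≠ 0)
    (m : Fin n → ℤ) (N : ℕ) (hN : ∀ j, 0 ≤ m j + N) :
    (∏ j, y j ^ m j) * (∏ j, y j) ^ N = ∏ j, y j ^ (m j + N).toNat := by
  rw [← Finset.prod_pow, ← Finset.prod_mul_distrib]
  refine Finset.prod_congr rfl fun j _ => ?_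
  rw [← zpow_natCast (y j) N, ← zpow_add₀ (hy j), ← zpow_natCast, Int.toNat_of_nonneg (hN j)]

/-- points of `act M '' V` are points of the variety with generic point `(M x, y^M)` -/
theorem act_pt {n : ℕ} {E : Type} [Field E] [Algebra ℂ E] (x y : Fin n → E) (hy : ∀ i, y i ≠ 0)
    (M : Matrix (Fin n) (Fin n) ℤ) (p : Fin n ⊕ Fin n → ℂ) (hp : p ∈ Pt (Sum.elim x y))
    (hp0 : ∀ i, p (Sum.inr i) ≠ 0) :
    act M p ∈ Pt (Sum.elim (fun i => ∑ j, ((M i j : ℤ) : E) * x j)
      (fun i => ∏ j, y j ^ M i j)) := by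
  classical
  refine Pool.Agent.Q239.EG.pt_of_frac hp (s := ∏ j : Fin n, X (Sum.inr j)) ?_ ?_
  · rw [map_prod]
    simp only [eval_X]
    exact Finset.prod_ne_zero_iff.2 fun j _ => hp0 j
  · rintro (i | i)
    · refine ⟨∑ j : Fin n, C ((M i j : ℤ) : ℂ) * X (Sum.inl j), 0, ?_, ?_⟩
      · rw [pow_zero, mul_one, map_sum]
        show ∑ j, ((M i j : ℤ) : E) * x j = _
        refine Finset.sum_congr rfl fun j _ => ?_
        rw [map_mul, aeval_X, aeval_C, map_intCast]
        rfl
      · rw [pow_zero, mul_one, map_sum]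
        show ∑ j, (M i j : ℂ) * p (Sum.inl j) = _
        refine Finset.sum_congr rfl fun j _ => ?_
        rw [map_mul, eval_X, eval_C]
    · have hN : ∀ j, 0 ≤ M i j + ((∑ j, (M i j).natAbs : ℕ) : ℤ) := by
        intro j
        have h1 : (M i j).natAbs ≤ ∑ j, (M i j).natAbs :=
          Finset.single_le_sum (f := fun j => (M i j).natAbs) (fun _ _ => Nat.zero_le _)
            (Finset.mem_univ j)
        have h2 : -((M i j).natAbs : ℤ) ≤ M i j := by omega
        have h3 : ((M i j).natAbs : ℤ) ≤ ((∑ j, (M i j).natAbs : ℕ) : ℤ) := by exact_mod_cast h1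
        linarith
      refine ⟨∏ j : Fin n, X (Sum.inr j) ^ (M i j + ((∑ j, (M i j).natAbs : ℕ) : ℤ)).toNat,
        ∑ j, (M i j).natAbs, ?_, ?_⟩
      · rw [map_prod, map_prod]
        simp only [map_pow, aeval_X, Sum.elim_inr]
        exact zpow_frac y hy (M i) _ hN
      · rw [map_prod, map_prod]
        simp only [map_pow, eval_X]
        exact zpow_frac (fun j => p (Sum.inr j)) hp0 (M i) _ hN

/-- the rank of the matrix with two independent rows -/
theorem rank_two (m₀ m₁ : Fin 3 → ℤ) (h : ∀ a b : ℤ, a • m₀ + b • m₁ = 0 → a = 0 ∧ b = 0) :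
    ((Matrix.of ![m₀, m₁, 0] : Matrix (Fin 3) (Fin 3) ℤ).map (Int.cast : ℤ → ℚ)).rank = 2 := by
  set v : Fin 2 → (Fin 3 → ℚ) := ![fun j => (m₀ j : ℚ), fun j => (m₁ j : ℚ)] with hv
  have hli : LinearIndependent ℚ v := by
    rw [hv, LinearIndependent.pair_iff]
    intro s t hst
    have h1 : (s.num * t.den) • m₀ + (t.num * s.den) • m₁ = 0 := by
      funext j
      have h2 := congrFun hst j
      simp only [Pi.add_apply, Pi.smul_apply, smul_eq_mul, Pi.zero_apply] at h2 ⊢
      have hs : (s : ℚ) = s.num / s.den := (Rat.num_div_den s).symm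
      have ht : (t : ℚ) = t.num / t.den := (Rat.num_div_den t).symm
      have hs0 : (s.den : ℚ) ≠ 0 := by exact_mod_cast s.den_nz
      have ht0 : (t.den : ℚ) ≠ 0 := by exact_mod_cast t.den_nz
      rw [hs, ht] at h2
      field_simp at h2
      have h3 : ((s.num * t.den * m₀ j + t.num * s.den * m₁ j : ℤ) : ℚ) = 0 := by
        push_cast
        linear_combination h2
      exact_mod_cast h3
    obtain ⟨h2, h3⟩ := h _ _ h1
    have hs0 : (s.den : ℤ) ≠ 0 := by exact_mod_cast s.den_nz
    have ht0 : (t.den : ℤ) ≠ 0 := by exact_mod_cast t.den_nz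
    constructor
    · exact Rat.num_eq_zero.1 ((mul_eq_zero.1 h2).resolve_right ht0)
    · exact Rat.num_eq_zero.1 ((mul_eq_zero.1 h3).resolve_right hs0)
  rw [Matrix.rank_eq_finrank_span_row]
  have hspan : Submodule.span ℚ (Set.range
      ((Matrix.of ![m₀, m₁, 0] : Matrix (Fin 3) (Fin 3) ℤ).map (Int.cast : ℤ → ℚ)).row) =
      Submodule.span ℚ (Set.range v) := by
    apply le_antisymm
    · rw [Submodule.span_le]
      rintro _ ⟨i, rfl⟩
      fin_cases i
      · exact Submodule.subset_span ⟨0, rfl⟩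
      · exact Submodule.subset_span ⟨1, rfl⟩
      · have e : ((Matrix.of ![m₀, m₁, 0] : Matrix (Fin 3) (Fin 3) ℤ).map
            (Int.cast : ℤ → ℚ)).row 2 = 0 := by
          funext j
          show (((0 : Fin 3 → ℤ) j : ℤ) : ℚ) = 0
          simp
        show ((Matrix.of ![m₀, m₁, 0] : Matrix (Fin 3) (Fin 3) ℤ).map
            (Int.cast : ℤ → ℚ)).row 2 ∈ _
        rw [e]
        exact Submodule.zero_mem _
    · rw [Submodule.span_le]
      rintro _ ⟨i, rfl⟩
      fin_cases i
      · exact Submodule.subset_span ⟨0, rfl⟩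
      · exact Submodule.subset_span ⟨1, rfl⟩
  rw [hspan, finrank_span_eq_card hli]
  rfl

theorem rot : S_rot := by
  intro I V E _ _ x y hV hrot hE hy m₀ m₁ hind ⟨h1, h2, h3⟩
  set M : Matrix (Fin 3) (Fin 3) ℤ := Matrix.of ![m₀, m₁, 0] with hM
  obtain ⟨J, hJ, hJi⟩ := hrot M
  rw [rank_two m₀ m₁ hind] at hJ
  set θ : Fin 3 ⊕ Fin 3 → E := Sum.elim (fun i => ∑ j, ((M i j : ℤ) : E) * x j)
    (fun i => ∏ j, y j ^ M i j) with hθ
  have hal : ∀ i, Al {∑ j, ((m₀ j : ℤ) : E) * x j} (θ i) := by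
    rintro (i | i)
    · fin_cases i
      · exact isAlgebraic_algebraMap (⟨∑ j, ((m₀ j : ℤ) : E) * x j,
          IntermediateField.subset_adjoin _ _ rfl⟩ :
          IntermediateField.adjoin ℂ {∑ j, ((m₀ j : ℤ) : E) * x j})
      · exact h1
      · have e : θ (Sum.inl 2) = 0 := by
          show ∑ j, (((0 : Fin 3 → ℤ) j : ℤ) : E) * x j = 0
          simp
        show Al _ (θ (Sum.inl 2))
        rw [e]
        exact isAlgebraic_zero
    · fin_cases i
      · exact h2
      · exact h3
      · have e : θ (Sum.inr 2) = 1 := by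
          show ∏ j, y j ^ ((0 : Fin 3 → ℤ) j) = 1
          simp
        show Al _ (θ (Sum.inr 2))
        rw [e]
        exact isAlgebraic_one
  obtain ⟨f, hf0, hfv, hf⟩ := rel_of_dep θ J (dep_of_al θ _ J hJ fun j _ => hal j)
  refine hf0 (hJi f hfv ?_)
  rintro _ ⟨p, hp, rfl⟩
  have hp1 : p ∈ Pt (Sum.elim x y) := fun g hg => (hE g).1 hg p hp
  have hp2 : ∀ i, p (Sum.inr i) ≠ 0 := by
    rw [hV.points] at hp
    exact hp.2
  exact act_pt x y hy M p hp1 hp2 f hf

end Pool.Agent.H100.EX
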